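import Pool.Agent.Helper39.CB.Main

/-!
# Balanced curve classes with isolated large strata

A class in `N_1` of the moduli space of stable `n`-pointed curves of genus zero is given by its
intersection numbers `c S` with the boundary divisors. One of the two sides of each boundary
divisor which it meets is chosen (for divisors with at least three points on each side) so that
chosen sides with at least four points meet the other chosen sides in at most one point. If the
sections of the resulting ruled surface have nonnegative self-intersections `2 * α i`, and the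
triples of colliding points are balanced with respect to `α`, the class is a nonnegative
combination of F-curves.
-/

set_option autoImplicit false

namespace Pool.Agent.Results.MP_159100_ag.BalancedStrata

open Finset Pool.Agent.Helper88.CC

theorem result {n : ℕ} (hn : 5 ≤ n) (c : Finset (Fin n) → ℝ) (hc : IsCurveClass c)
    (h0 : ∀ S, 0 ≤ c S)
    (𝒮 : Finset (Finset (Fin n)))
    (hS3 : ∀ S ∈ 𝒮, 3 ≤ S.card ∧ 3 ≤ Sᶜ.card) (hSc : ∀ S ∈ 𝒮, Sᶜ ∉ 𝒮)
    (hsupp : ∀ S, 3 ≤ S.card → 3 ≤ Sᶜ.card → c S ≠ 0 → S ∈ 𝒮 ∨ Sᶜ ∈ 𝒮)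
    (hiso : ∀ S ∈ 𝒮, 4 ≤ S.card → ∀ S' ∈ 𝒮, S' ≠ S → (S ∩ S').card ≤ 1)
    (α : Fin n → ℝ) (hα0 : ∀ i, 0 ≤ α i)
    (hα : ∀ i j, i ≠ j → α i + α j = c {i, j} + ∑ S ∈ 𝒮.filter (fun S => i ∈ S ∧ j ∈ S), c S)
    (hbal : ∀ i k, i ≠ k → 0 < α i →
      ∑ j ∈ univ.filter (fun j => ({i, j, k} : Finset (Fin n)) ∈ 𝒮), c {i, j, k} / (α i + α j) ≤ 2) :
    InFCone c :=
  Pool.Agent.Helper39.CB.main hn c hc h0 𝒮 hS3 hSc hsupp hiso α hα0 hα hbal

end Pool.Agent.Results.MP_159100_ag.BalancedStrata
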