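import Pool.Agent.Helper39.CN.Main

/-!
# Curve classes whose large strata are nested or almost disjoint

A class in `N_1` of the moduli space of stable `n`-pointed curves of genus zero is given by its
intersection numbers `c S` with the boundary divisors; here they are nonnegative. Let `𝒯` be a
family of sets of marked points, any two of which are nested or have at most one point in common.
If each boundary divisor which the class meets, and which has at least three points on each side,
has a side which is a member of `𝒯` or a member of `𝒯` without one of its points, then the class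
is a nonnegative combination of F-curves.
-/

set_option autoImplicit false

namespace Pool.Agent.Results.MP_159100_ag.NestedStrata

open Finset Pool.Agent.Helper88.CC

theorem result {n : ℕ} (hn : 5 ≤ n) (c : Finset (Fin n) → ℝ) (hc : IsCurveClass c)
    (h0 : ∀ S, 0 ≤ c S)
    (𝒯 : Finset (Finset (Fin n)))
    (hT : ∀ S ∈ 𝒯, ∀ S' ∈ 𝒯, S ⊆ S' ∨ S' ⊆ S ∨ (S ∩ S').card ≤ 1)
    (hsupp : ∀ S, 3 ≤ S.card → 3 ≤ Sᶜ.card → c S ≠ 0 →
      ∃ R, (R = S ∨ R = Sᶜ) ∧ (R ∈ 𝒯 ∨ ∃ i ∉ R, insert i R ∈ 𝒯)) :
    InFCone c :=
  Pool.Agent.Helper39.CN.main hn c hc h0 𝒯 hT hsupp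

end Pool.Agent.Results.MP_159100_ag.NestedStrata
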