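import Pool.Agent.Helper88.CC.Plane

/-!
# Curves obtained by projecting a plane configuration of points from a moving centre

Let `p_1, ..., p_n` be distinct points of a projective plane, spanning the lines `L`. Projecting
them from a moving centre gives a morphism from the blow up of the plane in these points to the
moduli space of stable `n`-pointed rational curves. The theorem says that the image of the whole
cone of curves of the blow up is contained in the cone spanned by the F-curves.
-/

set_option autoImplicit false

namespace Pool.Agent.Results.MP_159100_ag.PlaneProjections

open Pool.Agent.Helper88.CC

theorem result {n : ℕ} (hn : 2 ≤ n) (L : Finset (Finset (Fin n))) (hL : IsLinearSpace L) (d : ℝ)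
    (m : Fin n → ℝ) (h : PlaneEffective L d m) : InFCone (planeClass L d m) :=
  plane_main hn L hL d m h

end Pool.Agent.Results.MP_159100_ag.PlaneProjections
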