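import Pool.Agent.Helper88.CC.Main

/-!
# Curve classes meeting only strata with at most three colliding points

Let `r` be one of the `n ≥ 4` marked points. A class in `N_1` of the moduli space of stable
`n`-pointed curves of genus zero, which has nonnegative intersection with all boundary divisors
and zero intersection with `δ_S` whenever `r ∉ S` and `|S| ≥ 4`, is a nonnegative combination of
F-curves.
-/

set_option autoImplicit false

namespace Pool.Agent.Results.MP_159100_ag.TripleStrata

open Pool.Agent.Helper88.CC

theorem result {n : ℕ} (hn : 4 ≤ n) (r : Fin n) (c : Finset (Fin n) → ℝ) (hc : IsCurveClass c)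
    (h0 : ∀ S, 0 ≤ c S) (h4 : ∀ S, r ∉ S → 4 ≤ S.card → c S = 0) : InFCone c :=
  main hn r c hc h0 h4

end Pool.Agent.Results.MP_159100_ag.TripleStrata
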